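import Mathlib
import Pool.Agent.MWC.Stmts

/-!
# Block MWC: row BTL (the rules for exchanges of shapes, in the form of checks)
-/

namespace Pool.Agent.MWC.H95

open Pool.Agent.Helper14_MV Pool.Agent.Helper2_MV Pool.Agent.MVO Pool.Agent.MWL Pool.Agent.MWC

theorem mem_lsts {q m : ℕ} {l : List ℕ} (h : l ∈ lsts q m) : l.length = m ∧ ∀ x ∈ l, x < q := by
  induction m generalizing l with
  | zero =>
    simp only [lsts, List.mem_singleton] at h
    subst h
    exact ⟨rfl, fun x hx => absurd hx (by simp)⟩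
  | succ m ih =>
    rw [lsts, List.mem_flatMap] at h
    obtain ⟨l', hl', h⟩ := h
    rw [List.mem_map] at h
    obtain ⟨x, hx, rfl⟩ := h
    obtain ⟨h1, h2⟩ := ih hl'
    refine ⟨by rw [List.length_cons, h1], fun y hy => ?_⟩
    rcases List.mem_cons.1 hy with rfl | hy
    · exact List.mem_range.1 hx
    · exact h2 y hy

theorem rep_lt {q : ℕ} {l : List ℕ} (hq : 0 < q) (h : ∀ x ∈ l, x < q) (i : ℕ) : rep l i < q := by
  unfold rep
  by_cases hi : i < l.length
  · rw [List.getD_eq_getElem _ _ hi]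
    exact h _ (List.getElem_mem hi)
  · rw [List.getD_eq_default _ _ (not_lt.1 hi)]
    exact hq

theorem bmap_of_mps {k k1 : ℕ} {g : List ℕ} (h : g ∈ mps k k1) : BMap k k1 (rep g) := by
  unfold mps at h
  rw [List.mem_filter] at h
  obtain ⟨h1, h2⟩ := h
  rw [List.all_eq_true] at h2
  have h3 := mem_lsts h1
  have hstep : ∀ i < k, rep g i ≤ rep g (i + 1) := fun i hi =>
    Nat.le_of_ble_eq_true (h2 i (List.mem_range.2 hi))
  constructor
  · intro i j hij
    induction j, hij using Nat.le_induction with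
    | base => intro _; exact le_refl _
    | succ j hj ih =>
      intro hjk
      exact (ih (by omega)).trans (hstep j (by omega))
  · intro i _
    exact Nat.lt_succ_iff.1 (rep_lt (Nat.succ_pos k1) h3.2 i)

theorem pss_eq (k : ℕ) (g : List ℕ) (a : ℕ → ℕ) : pss k g a = psh k (rep g) a := by
  funext j
  unfold pss psh
  have h : ∀ m : ℕ, ((List.range m).map (fun i => if Nat.beq (rep g i) j then a i else 0)).sum =
      ∑ i ∈ Finset.range m, if rep g i = j then a i else 0 := by
    intro m
    induction m with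
    | zero => simp
    | succ m ih =>
      rw [List.range_succ, List.map_append, List.sum_append, ih, Finset.sum_range_succ]
      congr 1
      rw [List.map_singleton, List.sum_singleton]
      by_cases hc : rep g m = j
      · rw [if_pos hc, if_pos (by rw [hc]; exact Nat.beq_refl j)]
      · rw [if_neg hc, if_neg (fun hb => hc (Nat.eq_of_beq_eq_true hb))]
  exact h (k + 1)

theorem deg_of_vls (hSHF : ShfStmt) {r : Bool} {k : ℕ} {x : List ℕ} (hx : x ∈ vls r k) :
    2 ≤ deg k (rep x) := by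
  unfold vls at hx
  rw [List.mem_filter, Bool.and_eq_true, decide_eq_true_eq] at hx
  obtain ⟨_, h1, h2⟩ := hx
  rw [(hSHF r k (rep x)).2.1, h1]
  exact Nat.le_of_ble_eq_true h2

theorem max_of_lst (hSHF : ShfStmt) {r : Bool} {k i : ℕ} {x : List ℕ} (hi : i ≤ k)
    (h : lst k i [x] = true) : (sp k (rep x)).max = (i : WithBot ℕ) := by
  unfold lst at h
  rw [List.all_cons, List.all_nil, Bool.and_true, Bool.and_eq_true, Bool.and_eq_true] at h
  obtain ⟨⟨_, h1⟩, h2⟩ := h
  rw [((hSHF r k (rep x)).2.2.2.2.2.2.2 i hi)]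
  constructor
  · intro h0
    rw [h0] at h1
    exact absurd h1 (by decide)
  · intro j hj hij
    rw [List.all_eq_true] at h2
    have h3 := h2 j (List.mem_range.2 (by omega))
    rw [Bool.or_eq_true] at h3
    rcases h3 with h3 | h3
    · have := Nat.le_of_ble_eq_true h3
      omega
    · exact Nat.eq_of_beq_eq_true h3

theorem btl (hFAA : FaaStmt) (hBMN : BmnStmt) (hSHF : ShfStmt) : BtlStmt := by
  intro r n β hI hC hL
  obtain ⟨F0, _, _, _, F5, _⟩ := hFAA β hC
  refine ⟨?_, ?_, ?_⟩
  · intro k i x y hi hx hy h0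
    refine F0 k (rep x) (rep y) i (deg_of_vls hSHF hx) (deg_of_vls hSHF hy) hi ?_
    rintro ⟨h1, _⟩
    rw [((hSHF r k (rep x)).2.2.2.2.2.2.2 i hi)] at h1
    exact h1.1 h0
  · intro k k1 i i1 x y x1 y1 g hg hi hgi hx hy hlx hly hx1 hy1 hB
    unfold psl at hx1 hy1
    rw [pss_eq] at hx1 hy1
    exact hBMN r n β hI hC hL k k1 i i1 (rep x) (rep y) (rep g) x1 y1 (deg_of_vls hSHF hx)
      (deg_of_vls hSHF hy) hi (max_of_lst (r := r) hSHF hi hlx) (max_of_lst (r := r) hSHF hi hly)
      (bmap_of_mps hg) hgi hx1 hy1 hB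
  · intro k i x y hB
    exact F5 k (rep x) (rep y) i hB

end Pool.Agent.MWC.H95
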